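import Pool.Agent.V11321.HPL.Joint
import Pool.Agent.H731R6.Bc.F2a

/-!
The recursion and the exact joint law; the scaling limit.
-/

set_option autoImplicit false

namespace Pool.Agent.V11321.HPL

open MeasureTheory Filter Topology H731B

instance : IsProbabilityMeasure percH := by unfold percH; infer_instance

/-- the common value -/
noncomputable def tau (m : ℕ) : ℝ := percH.real (TT 0 m)

theorem TT_tau (i j : ℕ) : percH.real (TT i j) = tau (i + j) := by
  induction i generalizing j with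
  | zero => rw [zero_add]; rfl
  | succ i ih =>
    rw [measureReal_def, TT_step, ← measureReal_def, ih]
    congr 1
    ring

/-- the staircase -/
def UU (m r : ℕ) : Set Om := ⋃ i ∈ Finset.range (r + 1), TT i (m - i)

theorem UU_prob (m r : ℕ) (hr : r ≤ m) :
    percH.real (UU m r) = (r + 1) * tau m - r * tau (m + 1) := by
  induction r with
  | zero =>
    have : UU m 0 = TT 0 m := by
      ext ω
      simp [UU]
    rw [this]
    simp [tau]
  | succ r ih =>
    have e1 : UU m (r + 1) = UU m r ∪ TT (r + 1) (m - (r + 1)) := by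
      unfold UU
      rw [Finset.range_add_one (n := r + 1), Finset.set_biUnion_insert, Set.union_comm]
    have e2 : UU m r ∩ TT (r + 1) (m - (r + 1)) = TT (r + 1) (m - r) := by
      ext ω
      simp only [UU, Set.mem_inter_iff, Set.mem_iUnion, Finset.mem_range]
      constructor
      · rintro ⟨⟨i, hi, h1⟩, h2⟩
        refine ⟨h2.1, le_trans ?_ h1.2⟩
        have : m - r ≤ m - i := by omega
        exact_mod_cast this
      · intro h
        refine ⟨⟨r, by omega, ⟨le_trans ?_ h.1, h.2⟩⟩, ⟨h.1, le_trans ?_ h.2⟩⟩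
        · have : r ≤ r + 1 := by omega
          exact_mod_cast this
        · have : m - (r + 1) ≤ m - r := by omega
          exact_mod_cast this
    have h := measureReal_union_add_inter (μ := percH) (s := UU m r)
      (t := TT (r + 1) (m - (r + 1))) (meas_TT _ _)
    rw [← e1, e2, TT_tau, TT_tau, ih (by omega), show r + 1 + (m - (r + 1)) = m by omega,
      show r + 1 + (m - r) = m + 1 by omega] at h
    push_cast
    linarith

theorem split (ω : Om) : (bclH ω).encard =
    (prt {b | b < 0} ω).encard + (prt {b | 0 < b} ω).encard + 1 := by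
  have e : bclH ω = insert 0 (prt {b | b < 0} ω ∪ prt {b | 0 < b} ω) := by
    ext b
    simp only [prt, Set.mem_insert_iff, Set.mem_union, Set.mem_inter_iff, Set.mem_setOf_eq]
    constructor
    · intro h
      rcases lt_trichotomy b 0 with h1 | h1 | h1
      · exact Or.inr (Or.inl ⟨h, h1⟩)
      · exact Or.inl h1
      · exact Or.inr (Or.inr ⟨h, h1⟩)
    · rintro (rfl | ⟨h, _⟩ | ⟨h, _⟩)
      · exact Relation.EqvGen.refl _
      · exact h
      · exact h
  rw [e, Set.encard_insert_of_notMem (by simp [prt]), Set.encard_union_eq]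
  rw [Set.disjoint_left]
  intro b h1 h2
  have h3 : b < 0 := h1.2
  have h4 : 0 < b := h2.2
  omega

theorem UU_eq (m : ℕ) : UU m m = {ω | ((m + 1 : ℕ) : ℕ∞) ≤ (bclH ω).encard} := by
  ext ω
  simp only [UU, Set.mem_iUnion, Finset.mem_range, Set.mem_setOf_eq, TT]
  rw [split, enat_succ]
  constructor
  · rintro ⟨i, hi, h1, h2⟩
    have h3 : (m : ℕ∞) = (i : ℕ∞) + ((m - i : ℕ) : ℕ∞) := by
      have : m = i + (m - i) := by omega
      exact_mod_cast this
    rw [h3]
    exact add_le_add h1 h2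
  · intro h
    generalize (prt {b | b < 0} ω).encard = A at *
    generalize (prt {b | 0 < b} ω).encard = B at *
    by_cases hA : (m : ℕ∞) ≤ A
    · exact ⟨m, by omega, hA, by simp⟩
    · have hA' : A < m := not_le.1 hA
      obtain ⟨a, rfl⟩ := ENat.ne_top_iff_exists.1 (ne_top_of_lt hA')
      have ham : a < m := by exact_mod_cast hA'
      refine ⟨a, by omega, le_rfl, ?_⟩
      have h3 : (m : ℕ∞) = (a : ℕ∞) + ((m - a : ℕ) : ℕ∞) := by
        have : m = a + (m - a) := by omega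
        exact_mod_cast this
      rw [h3] at h
      exact (ENat.add_le_add_iff_left (by simp)).1 h

/-- central binomial weights -/
noncomputable def cb (m : ℕ) : ℝ := ((2 * m).choose m : ℝ) / 4 ^ m

theorem cb_succ (m : ℕ) : cb (m + 1) * (2 * m + 2) = cb m * (2 * m + 1) := by
  have h := Nat.succ_mul_centralBinom_succ m
  unfold Nat.centralBinom at h
  have h' : ((m : ℝ) + 1) * ((2 * (m + 1)).choose (m + 1) : ℝ) =
      2 * (2 * m + 1) * ((2 * m).choose m : ℝ) := by exact_mod_cast h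
  unfold cb
  rw [pow_succ]
  have h4 : (4:ℝ) ^ m ≠ 0 := by positivity
  field_simp
  linarith

theorem cb_pos (m : ℕ) : 0 < cb m := by
  unfold cb
  have : 0 < (2 * m).choose m := Nat.choose_pos (by omega)
  positivity

theorem tau_rec (m : ℕ) : ((m : ℝ) + 1) * tau m - m * tau (m + 1) =
    cb (m + 1) * (3 * m + 2) / (2 * m + 1) := by
  have h1 := UU_prob m m le_rfl
  rw [UU_eq, half_plane (by omega)] at h1
  rw [← h1]
  unfold cb
  push_cast
  have h4 : (4:ℝ) ^ (m + 1) ≠ 0 := by positivity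
  have h5 : (2 * (m : ℝ) + 1) ≠ 0 := by positivity
  have h6 : (2 * ((m : ℝ) + 1) - 1) ≠ 0 := by
    have : (0:ℝ) ≤ m := Nat.cast_nonneg m
    linarith
  have h7 : (2 * ((m : ℝ) + 1) - 1) = 2 * (m : ℝ) + 1 := by ring
  rw [h7]
  field_simp
  ring

theorem tau_form (m : ℕ) (hm : 1 ≤ m) : tau m = cb m + m * (tau 1 - cb 1) := by
  induction m with
  | zero => omega
  | succ m ih =>
    rcases Nat.eq_zero_or_pos m with h | h
    · subst h
      simp
    · have h1 := ih h
      have h2 := tau_rec m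
      have h3 := cb_succ m
      have hm0 : (0:ℝ) < m := by exact_mod_cast h
      have h5 : (2 * (m : ℝ) + 1) ≠ 0 := by positivity
      have h6 : cb m = cb (m + 1) * (2 * m + 2) / (2 * m + 1) := by
        rw [eq_div_iff h5]; exact h3.symm
      have h7 : (m : ℝ) * tau (m + 1) = m * (cb (m + 1) + ((m : ℝ) + 1) * (tau 1 - cb 1)) := by
        have h8 : (m : ℝ) * tau (m + 1) = ((m : ℝ) + 1) * tau m -
            cb (m + 1) * (3 * m + 2) / (2 * m + 1) := by linarith
        rw [h8, h1, h6]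
        field_simp
        ring
      have h9 := mul_left_cancel₀ hm0.ne' h7
      rw [h9]
      push_cast
      ring

theorem cb_le (m : ℕ) : cb m ≤ 1 := by
  unfold cb
  rw [div_le_one (by positivity)]
  have : (2 * m).choose m ≤ 4 ^ m := by
    calc (2 * m).choose m ≤ 2 ^ (2 * m) := Nat.choose_le_two_pow _ _
      _ = 4 ^ m := by rw [pow_mul]; norm_num
  exact_mod_cast this

theorem tau_one : tau 1 = cb 1 := by
  by_contra hne
  have h1 : ∀ m : ℕ, 1 ≤ m → (m : ℝ) * |tau 1 - cb 1| ≤ 1 := by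
    intro m hm
    have h2 := tau_form m hm
    have h3 : (m : ℝ) * (tau 1 - cb 1) = tau m - cb m := by linarith
    have h4 : 0 ≤ tau m := measureReal_nonneg
    have h5 : tau m ≤ 1 := measureReal_le_one
    have h6 := cb_pos m
    have h7 := cb_le m
    rw [← abs_of_nonneg (Nat.cast_nonneg m : (0:ℝ) ≤ m), ← abs_mul, h3, abs_le]
    constructor <;> linarith
  have h8 : 0 < |tau 1 - cb 1| := abs_pos.2 (sub_ne_zero.2 hne)
  obtain ⟨m, hm⟩ := exists_nat_gt (1 / |tau 1 - cb 1|)
  have h9 := h1 (m + 1) (by omega)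
  push_cast at h9
  rw [div_lt_iff₀ h8] at hm
  nlinarith

theorem tau_zero : tau 0 = cb 0 := by
  have : TT 0 0 = Set.univ := by
    ext ω
    simp [TT]
  unfold tau cb
  rw [this, probReal_univ]
  simp

/-- **The exact joint law.** -/
theorem joint (i j : ℕ) : percH.real (TT i j) = ((2 * (i + j)).choose (i + j) : ℝ) / 4 ^ (i + j) := by
  rw [TT_tau]
  rcases Nat.eq_zero_or_pos (i + j) with h | h
  · rw [h]
    exact tau_zero
  · rw [tau_form _ h, tau_one]
    unfold cb
    ring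

theorem exact_iff (e : ℕ∞) (i : ℕ) : e = i ↔ (i : ℕ∞) ≤ e ∧ ¬ (((i + 1 : ℕ) : ℕ∞) ≤ e) := by
  constructor
  · rintro rfl
    refine ⟨le_rfl, ?_⟩
    intro h
    have : i + 1 ≤ i := by exact_mod_cast h
    omega
  · rintro ⟨h1, h2⟩
    have h3 : e < ((i + 1 : ℕ) : ℕ∞) := not_le.1 h2
    obtain ⟨a, rfl⟩ := ENat.ne_top_iff_exists.1 (ne_top_of_lt h3)
    have h4 : a < i + 1 := by exact_mod_cast h3
    have h5 : i ≤ a := by exact_mod_cast h1
    have : a = i := by omega
    rw [this]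

/-- the exact joint law, exactly `i` and exactly `j` -/
theorem joint_eq (i j : ℕ) : percH.real {ω | (prt {b | b < 0} ω).encard = i ∧
      (prt {b | 0 < b} ω).encard = j} =
    3 * ((2 * (i + j + 1)).choose (i + j + 1) : ℝ) /
      ((2 * ((i : ℝ) + j) + 1) * (2 * ((i : ℝ) + j) + 4) * 4 ^ (i + j + 1)) := by
  have e : {ω | (prt {b | b < 0} ω).encard = i ∧ (prt {b | 0 < b} ω).encard = j} =
      TT i j \ (TT (i + 1) j ∪ TT i (j + 1)) := by
    ext ω
    simp only [Set.mem_setOf_eq, Set.mem_diff, Set.mem_union, TT, exact_iff]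
    generalize (prt {b | b < 0} ω).encard = A
    generalize (prt {b | 0 < b} ω).encard = B
    tauto
  have hsub : TT (i + 1) j ∪ TT i (j + 1) ⊆ TT i j := by
    rintro ω (h | h)
    · refine ⟨le_trans ?_ h.1, h.2⟩
      exact_mod_cast Nat.le_succ i
    · refine ⟨h.1, le_trans ?_ h.2⟩
      exact_mod_cast Nat.le_succ j
  have hint : TT (i + 1) j ∩ TT i (j + 1) = TT (i + 1) (j + 1) := by
    ext ω
    constructor
    · rintro ⟨h1, h2⟩
      exact ⟨h1.1, h2.2⟩
    · intro h
      refine ⟨⟨h.1, le_trans ?_ h.2⟩, ⟨le_trans ?_ h.1, h.2⟩⟩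
      · exact_mod_cast Nat.le_succ j
      · exact_mod_cast Nat.le_succ i
  have h1 := measureReal_union_add_inter (μ := percH) (s := TT (i + 1) j)
    (t := TT i (j + 1)) (meas_TT _ _)
  rw [hint, joint, joint, joint] at h1
  rw [e, measureReal_diff hsub ((meas_TT _ _).union (meas_TT _ _)), joint]
  have h2 := cb_succ (i + j)
  have h3 := cb_succ (i + j + 1)
  have e1 : ((2 * (i + j)).choose (i + j) : ℝ) / 4 ^ (i + j) = cb (i + j) := rfl
  have e2 : ((2 * (i + 1 + j)).choose (i + 1 + j) : ℝ) / 4 ^ (i + 1 + j) = cb (i + j + 1) := by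
    rw [show i + 1 + j = i + j + 1 by ring]; rfl
  have e3 : ((2 * (i + (j + 1))).choose (i + (j + 1)) : ℝ) / 4 ^ (i + (j + 1)) = cb (i + j + 1) := rfl
  have e4 : ((2 * (i + 1 + (j + 1))).choose (i + 1 + (j + 1)) : ℝ) / 4 ^ (i + 1 + (j + 1)) =
      cb (i + j + 1 + 1) := by
    rw [show i + 1 + (j + 1) = i + j + 1 + 1 by ring]; rfl
  rw [e2, e3, e4] at h1
  rw [e1]
  push_cast at h2 h3
  obtain ⟨s, hs⟩ : ∃ s : ℝ, s = (i : ℝ) + j := ⟨_, rfl⟩
  have hs0 : 0 ≤ s := by rw [hs]; positivity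
  rw [← hs] at h2 h3 ⊢
  have h5 : (2 * s + 1) ≠ 0 := by positivity
  have h6 : (2 * s + 4) ≠ 0 := by positivity
  have h7 : cb (i + j) = cb (i + j + 1) * (2 * s + 2) / (2 * s + 1) := by
    rw [eq_div_iff h5]; linarith
  have h8 : cb (i + j + 1 + 1) = cb (i + j + 1) * (2 * s + 3) / (2 * s + 4) := by
    rw [eq_div_iff h6]; linarith
  have h9 : percH.real (TT (i + 1) j ∪ TT i (j + 1)) = cb (i + j + 1) + cb (i + j + 1) -
      cb (i + j + 1 + 1) := by linarith
  rw [h9, h7, h8]
  have h10 : cb (i + j + 1) = ((2 * (i + j + 1)).choose (i + j + 1) : ℝ) / 4 ^ (i + j + 1) := rfl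
  rw [h10]
  have h11 : (4:ℝ) ^ (i + j + 1) ≠ 0 := by positivity
  field_simp
  ring

/-- the scaling limit -/
theorem joint_lim (a b : ℝ) (ha : 0 ≤ a) (hb : 0 ≤ b) (hab : 0 < a + b) :
    Tendsto (fun m : ℕ => Real.sqrt m * percH.real (TT ⌈a * m⌉₊ ⌈b * m⌉₊)) atTop
      (𝓝 (1 / Real.sqrt (Real.pi * (a + b)))) := by
  have h1 : Tendsto (fun m : ℕ => (((⌈a * m⌉₊ + ⌈b * m⌉₊ : ℕ) : ℝ)) / m) atTop (𝓝 (a + b)) := by
    have h2 := ((tendsto_nat_ceil_mul_div_atTop ha).comp (tendsto_natCast_atTop_atTop (R := ℝ))).add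
      ((tendsto_nat_ceil_mul_div_atTop hb).comp (tendsto_natCast_atTop_atTop (R := ℝ)))
    refine h2.congr fun m => ?_
    simp only [Function.comp_apply]
    push_cast
    rw [add_div]
  have h3 : Tendsto (fun m : ℕ => (((⌈a * m⌉₊ + ⌈b * m⌉₊ : ℕ) : ℝ))) atTop atTop := by
    have h := h1.pos_mul_atTop hab (tendsto_natCast_atTop_atTop (R := ℝ))
    refine h.congr' ?_
    filter_upwards [eventually_ge_atTop 1] with m hm
    have : (m : ℝ) ≠ 0 := by positivity
    field_simp
  have h4 : Tendsto (fun m : ℕ => ⌈a * m⌉₊ + ⌈b * m⌉₊) atTop atTop := tendsto_natCast_atTop_iff.1 h3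
  have h5 := F2a.tendsto_choose.comp h4
  have h6 : Tendsto (fun m : ℕ => (Real.sqrt ((((⌈a * m⌉₊ + ⌈b * m⌉₊ : ℕ) : ℝ)) / m))⁻¹) atTop
      (𝓝 (Real.sqrt (a + b))⁻¹) := h1.sqrt.inv₀ (Real.sqrt_pos.2 hab).ne'
  have h7 := h5.mul h6
  have e : 1 / Real.sqrt Real.pi * (Real.sqrt (a + b))⁻¹ = 1 / Real.sqrt (Real.pi * (a + b)) := by
    rw [Real.sqrt_mul Real.pi_pos.le]
    field_simp
  rw [e] at h7
  refine h7.congr' ?_
  filter_upwards [eventually_ge_atTop 1, h4.eventually_ge_atTop 1] with m hm hk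
  have hm0 : (0:ℝ) < m := by positivity
  simp only [Function.comp_apply]
  rw [joint]
  generalize ⌈a * m⌉₊ + ⌈b * m⌉₊ = k at *
  have hk0 : (0:ℝ) < k := by exact_mod_cast hk
  have hs1 : 0 < Real.sqrt (k:ℝ) := Real.sqrt_pos.2 hk0
  have hs2 : 0 < Real.sqrt (m:ℝ) := Real.sqrt_pos.2 hm0
  rw [Real.sqrt_div hk0.le]
  field_simp

end Pool.Agent.V11321.HPL
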