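import Pool.Agent.H731R6.Bc.HP5

/-!
The joint law of the numbers of the boundary vertices on the left and on the right of the origin in
its cluster (half-plane): `P(A ≥ i, B ≥ j) = C(2 (i + j), i + j) / 4 ^ (i + j)`.
-/

set_option autoImplicit false

namespace Pool.Agent.V11321.HPL

open MeasureTheory Filter Topology H731B

/-- configurations -/
abbrev Om : Type := ℤ × ℕ → Bool

/-- joined in `m` steps -/
def st (ω : Om) (p : ℤ × ℕ) : ℕ → ℤ × ℕ → Prop
  | 0, q => q = p
  | m + 1, q => ∃ r, st ω p m r ∧ (OpenAdjH ω r q ∨ OpenAdjH ω q r)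

theorem eqv_st (ω : Om) (p q : ℤ × ℕ) : Relation.EqvGen (OpenAdjH ω) p q ↔ ∃ m, st ω p m q := by
  constructor
  · intro h
    have key : ∀ a b, Relation.EqvGen (OpenAdjH ω) a b → ((∃ m, st ω p m a) ↔ ∃ m, st ω p m b) := by
      intro a b hab
      induction hab with
      | rel a b hab =>
        exact ⟨fun ⟨m, hm⟩ => ⟨m + 1, a, hm, Or.inl hab⟩, fun ⟨m, hm⟩ => ⟨m + 1, b, hm, Or.inr hab⟩⟩
      | refl a => exact Iff.rfl
      | symm a b _ ih => exact ih.symm
      | trans a b c _ _ ih1 ih2 => exact ih1.trans ih2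
    exact (key p q h).1 ⟨0, rfl⟩
  · rintro ⟨m, hm⟩
    induction m generalizing q with
    | zero =>
      rw [show q = p from hm]
      exact Relation.EqvGen.refl _
    | succ m ih =>
      obtain ⟨r, hr, h | h⟩ := hm
      · exact (ih r hr).trans _ _ _ (Relation.EqvGen.rel _ _ h)
      · exact (ih r hr).trans _ _ _ ((Relation.EqvGen.rel _ _ h).symm)

theorem meas_adj (p q : ℤ × ℕ) : MeasurableSet {ω : Om | OpenAdjH ω p q} := by
  have : {ω : Om | OpenAdjH ω p q} = ⋃ a : ℤ, ⋃ t : ℕ, {ω : Om | ω (a, t) = true} ∩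
      {_ω : Om | ((Even (a + t) ∧ p = (a, t) ∧ q = (a + 1, t + 1)) ∨
      (¬ Even (a + t) ∧ p = (a + 1, t) ∧ q = (a, t + 1)))} := by
    ext ω
    simp only [Set.mem_setOf_eq, Set.mem_iUnion, Set.mem_inter_iff]
    rfl
  rw [this]
  refine MeasurableSet.iUnion fun a => MeasurableSet.iUnion fun t => ?_
  refine MeasurableSet.inter ?_ (MeasurableSet.const _)
  exact (measurable_pi_apply (a, t) : Measurable fun ω : Om => ω (a, t))
    (measurableSet_singleton true)

theorem meas_st (p : ℤ × ℕ) (m : ℕ) (q : ℤ × ℕ) : MeasurableSet {ω : Om | st ω p m q} := by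
  induction m generalizing q with
  | zero => exact MeasurableSet.const _
  | succ m ih =>
    have : {ω : Om | st ω p (m + 1) q} = ⋃ r, {ω : Om | st ω p m r} ∩
        ({ω : Om | OpenAdjH ω r q} ∪ {ω : Om | OpenAdjH ω q r}) := by
      ext ω
      simp only [Set.mem_setOf_eq, Set.mem_iUnion, Set.mem_inter_iff, Set.mem_union]
      rfl
    rw [this]
    exact MeasurableSet.iUnion fun r => (ih r).inter ((meas_adj r q).union (meas_adj q r))

theorem meas_mem (b : ℤ) : MeasurableSet {ω : Om | b ∈ bclH ω} := by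
  have : {ω : Om | b ∈ bclH ω} = ⋃ m, {ω : Om | st ω (0, 0) m (b, 0)} := by
    ext ω
    simp only [Set.mem_setOf_eq, Set.mem_iUnion]
    exact eqv_st ω _ _
  rw [this]
  exact MeasurableSet.iUnion fun m => meas_st _ _ _

/-- the boundary vertices of the cluster in the set `S` -/
def prt (S : Set ℤ) (ω : Om) : Set ℤ := bclH ω ∩ S

theorem meas_prt (S : Set ℤ) (k : ℕ) : MeasurableSet {ω : Om | (k : ℕ∞) ≤ (prt S ω).encard} := by
  have : {ω : Om | (k : ℕ∞) ≤ (prt S ω).encard} = ⋃ t : Finset ℤ, {ω : Om | (t : Set ℤ) ⊆ prt S ω} ∩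
      {_ω : Om | t.card = k} := by
    ext ω
    simp only [Set.mem_setOf_eq, Set.mem_iUnion, Set.mem_inter_iff]
    constructor
    · intro h
      obtain ⟨t, h1, h2⟩ := Set.exists_subset_encard_eq h
      have hf : t.Finite := Set.finite_of_encard_eq_coe h2
      refine ⟨hf.toFinset, by simpa using h1, ?_⟩
      have h3 : t.ncard = k := by
        rw [Set.ncard_def, h2]; rfl
      rw [← h3, Set.ncard_eq_toFinset_card t hf]
    · rintro ⟨t, h1, h2⟩
      rw [← h2, ← Set.encard_coe_eq_coe_finsetCard]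
      exact Set.encard_le_encard h1
  rw [this]
  refine MeasurableSet.iUnion fun t => MeasurableSet.inter ?_ (MeasurableSet.const _)
  have : {ω : Om | (t : Set ℤ) ⊆ prt S ω} = ⋂ b ∈ t, {ω : Om | b ∈ bclH ω} ∩ {_ω | b ∈ S} := by
    ext ω
    simp only [Set.mem_setOf_eq, Set.mem_iInter, Set.subset_def, prt, Set.mem_inter_iff,
      Finset.mem_coe]
  rw [this]
  exact Finset.measurableSet_biInter _ fun b _ => (meas_mem b).inter (MeasurableSet.const _)

/-- at least `i` on the left and at least `j` on the right -/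
def TT (i j : ℕ) : Set Om :=
  {ω | (i : ℕ∞) ≤ (prt {b | b < 0} ω).encard ∧ (j : ℕ∞) ≤ (prt {b | 0 < b} ω).encard}

theorem meas_TT (i j : ℕ) : MeasurableSet (TT i j) := (meas_prt _ i).inter (meas_prt _ j)

/-- shift of the configuration -/
def sh (d : ℤ) (ω : Om) : Om := fun p => ω (p.1 + d, p.2)

theorem adj_sh {d : ℤ} (hd : Even d) (ω : Om) {p r : ℤ × ℕ} (h : OpenAdjH (sh d ω) p r) :
    OpenAdjH ω (p.1 + d, p.2) (r.1 + d, r.2) := by
  obtain ⟨c, t, h1, h2⟩ := h
  have h4 : Even (c + d + t) ↔ Even (c + t) := by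
    rw [show c + d + (t : ℤ) = c + t + d by ring, Int.even_add]
    tauto
  refine ⟨c + d, t, h1, ?_⟩
  rcases h2 with ⟨h3, rfl, rfl⟩ | ⟨h3, rfl, rfl⟩
  · exact Or.inl ⟨h4.2 h3, rfl, by simp [add_right_comm]⟩
  · exact Or.inr ⟨fun h => h3 (h4.1 h), by simp [add_right_comm], rfl⟩

theorem adj_sh' {d : ℤ} (hd : Even d) (ω : Om) {p r : ℤ × ℕ} (h : OpenAdjH ω p r) :
    OpenAdjH (sh d ω) (p.1 - d, p.2) (r.1 - d, r.2) := by
  obtain ⟨c, t, h1, h2⟩ := h
  have h4 : Even (c - d + t) ↔ Even (c + t) := by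
    rw [show c - d + (t : ℤ) = c + t - d by ring, Int.even_sub]
    tauto
  refine ⟨c - d, t, by simpa [sh] using h1, ?_⟩
  rcases h2 with ⟨h3, rfl, rfl⟩ | ⟨h3, rfl, rfl⟩
  · exact Or.inl ⟨h4.2 h3, rfl, by simp [sub_add_eq_add_sub]⟩
  · exact Or.inr ⟨fun h => h3 (h4.1 h), by simp [sub_add_eq_add_sub], rfl⟩

theorem eqv_map {α β : Type*} {r : α → α → Prop} {s : β → β → Prop} (f : α → β)
    (h : ∀ a b, r a b → s (f a) (f b)) {a b : α} (hab : Relation.EqvGen r a b) :
    Relation.EqvGen s (f a) (f b) := by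
  induction hab with
  | rel a b hab => exact Relation.EqvGen.rel _ _ (h _ _ hab)
  | refl a => exact Relation.EqvGen.refl _
  | symm a b _ ih => exact Relation.EqvGen.symm _ _ ih
  | trans a b c _ _ ih1 ih2 => exact Relation.EqvGen.trans _ _ _ ih1 ih2

/-- on the event that `(d, 0)` is in the cluster, the cluster moves with the shift -/
theorem bcl_sh {d : ℤ} (hd : Even d) (ω : Om) (h : d ∈ bclH ω) (b : ℤ) :
    b ∈ bclH (sh d ω) ↔ b + d ∈ bclH ω := by
  constructor
  · intro hb
    have h1 := eqv_map (fun p : ℤ × ℕ => (p.1 + d, p.2)) (fun p r h => adj_sh hd ω h) hb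
    simp only [zero_add] at h1
    exact Relation.EqvGen.trans _ _ _ h h1
  · intro hb
    have h0 : Relation.EqvGen (OpenAdjH ω) (d, 0) (b + d, 0) :=
      Relation.EqvGen.trans _ _ _ (Relation.EqvGen.symm _ _ h) hb
    have h1 := eqv_map (fun p : ℤ × ℕ => (p.1 - d, p.2)) (fun p r h => adj_sh' hd ω h) h0
    simp only [sub_self, add_sub_cancel_right] at h1
    exact h1

theorem neg_mem_sh {d : ℤ} (hd : Even d) (ω : Om) : -d ∈ bclH (sh d ω) ↔ d ∈ bclH ω := by
  constructor
  · intro hb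
    have h1 := eqv_map (fun p : ℤ × ℕ => (p.1 + d, p.2)) (fun p r h => adj_sh hd ω h) hb
    simp only [zero_add, neg_add_cancel] at h1
    exact h1.symm
  · intro h
    refine (bcl_sh hd ω h (-d)).2 ?_
    rw [neg_add_cancel]
    exact Relation.EqvGen.refl _

theorem map_sh (d : ℤ) : percH.map (sh d) = percH := by
  unfold percH
  refine map_inj _ (fun p : ℤ × ℕ => ((p.1 + d, p.2) : ℤ × ℕ)) ?_
  rintro ⟨x, t⟩ ⟨y, s⟩ h
  simp only [Prod.mk.injEq] at h ⊢
  exact ⟨add_right_cancel h.1, h.2⟩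

theorem meas_sh (d : ℤ) : Measurable (sh d) :=
  measurable_pi_lambda _ (fun _ => measurable_pi_apply _)

theorem parity (ω : Om) {p r : ℤ × ℕ} (h : Relation.EqvGen (OpenAdjH ω) p r) :
    Even (p.1 + p.2) ↔ Even (r.1 + r.2) := by
  induction h with
  | rel x y hab =>
    obtain ⟨a, t, h1, ⟨h3, rfl, rfl⟩ | ⟨h3, rfl, rfl⟩⟩ := hab
    · simp only
      push_cast
      rw [show a + 1 + ((t : ℤ) + 1) = (a + t) + 2 by ring, Int.even_add (m := a + t) (n := 2)]
      simp only [even_two, iff_true]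
    · simp only
      push_cast
      rw [show a + 1 + (t : ℤ) = a + (t + 1) by ring]
  | refl a => exact Iff.rfl
  | symm a b _ ih => exact ih.symm
  | trans a b c _ _ ih1 ih2 => exact ih1.trans ih2

theorem even_mem {ω : Om} {d : ℤ} (h : d ∈ bclH ω) : Even d := by
  have := parity ω h
  simpa using this

/-- the next boundary vertex of the cluster on the right is `d` -/
def NR (d : ℤ) : Set Om := {ω | d ∈ bclH ω ∧ ∀ b, 0 < b → b < d → b ∉ bclH ω}

/-- the next boundary vertex of the cluster on the left is `- d` -/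
def NL (d : ℤ) : Set Om := {ω | -d ∈ bclH ω ∧ ∀ b, -d < b → b < 0 → b ∉ bclH ω}

theorem meas_NR (d : ℤ) : MeasurableSet (NR d) := by
  have : NR d = {ω | d ∈ bclH ω} ∩ ⋂ b : ℤ, ⋂ _ : 0 < b, ⋂ _ : b < d, {ω | b ∈ bclH ω}ᶜ := by
    ext ω
    simp only [NR, Set.mem_setOf_eq, Set.mem_inter_iff, Set.mem_iInter, Set.mem_compl_iff]
  rw [this]
  exact (meas_mem d).inter (MeasurableSet.iInter fun b => MeasurableSet.iInter fun _ =>
    MeasurableSet.iInter fun _ => (meas_mem b).compl)

theorem meas_NL (d : ℤ) : MeasurableSet (NL d) := by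
  have : NL d = {ω | -d ∈ bclH ω} ∩ ⋂ b : ℤ, ⋂ _ : -d < b, ⋂ _ : b < 0, {ω | b ∈ bclH ω}ᶜ := by
    ext ω
    simp only [NL, Set.mem_setOf_eq, Set.mem_inter_iff, Set.mem_iInter, Set.mem_compl_iff]
  rw [this]
  exact (meas_mem (-d)).inter (MeasurableSet.iInter fun b => MeasurableSet.iInter fun _ =>
    MeasurableSet.iInter fun _ => (meas_mem b).compl)

theorem enat_succ {a : ℕ} {e : ℕ∞} : ((a + 1 : ℕ) : ℕ∞) ≤ e + 1 ↔ (a : ℕ∞) ≤ e := by
  push_cast
  exact ENat.add_le_add_iff_right (by simp)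

theorem TT_sh {d : ℤ} (hd : Even d) (hd0 : 0 < d) (i j : ℕ) :
    sh d ⁻¹' (TT (i + 1) j ∩ NL d) = TT i (j + 1) ∩ NR d := by
  ext ω
  simp only [Set.mem_preimage, Set.mem_inter_iff]
  by_cases hm : d ∈ bclH ω
  · have h0 : (0:ℤ) ∈ bclH ω := Relation.EqvGen.refl _
    have e1 : (sh d ω ∈ NL d) ↔ ω ∈ NR d := by
      unfold NL NR
      simp only [Set.mem_setOf_eq, neg_mem_sh hd, hm, true_and]
      constructor
      · intro h b hb1 hb2 hb
        refine h (b - d) (by linarith) (by linarith) ?_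
        rw [bcl_sh hd ω hm, sub_add_cancel]
        exact hb
      · intro h b hb1 hb2 hb
        rw [bcl_sh hd ω hm] at hb
        exact h (b + d) (by linarith) (by linarith) hb
    rw [e1]
    refine and_congr_left fun hN => ?_
    have hL : prt {b | b < 0} (sh d ω) = (fun c => c - d) '' (insert 0 (prt {b | b < 0} ω)) := by
      ext b
      simp only [prt, Set.mem_inter_iff, Set.mem_setOf_eq, Set.mem_image, Set.mem_insert_iff,
        bcl_sh hd ω hm]
      constructor
      · rintro ⟨h1, h2⟩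
        refine ⟨b + d, ?_, by ring⟩
        rcases lt_trichotomy (b + d) 0 with h | h | h
        · exact Or.inr ⟨h1, h⟩
        · exact Or.inl h
        · exact absurd h1 (hN.2 _ h (by linarith))
      · rintro ⟨c, h | ⟨h1, h2⟩, rfl⟩
        · subst h
          exact ⟨by simpa using h0, by linarith⟩
        · exact ⟨by simpa using h1, by linarith⟩
    have hR : prt {b | 0 < b} ω = insert d ((fun c => c + d) '' (prt {b | 0 < b} (sh d ω))) := by
      ext b
      simp only [prt, Set.mem_inter_iff, Set.mem_setOf_eq, Set.mem_image, Set.mem_insert_iff,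
        bcl_sh hd ω hm]
      constructor
      · rintro ⟨h1, h2⟩
        rcases lt_trichotomy b d with h | h | h
        · exact absurd h1 (hN.2 _ h2 h)
        · exact Or.inl h
        · exact Or.inr ⟨b - d, ⟨by simpa using h1, by linarith⟩, by ring⟩
      · rintro (rfl | ⟨c, ⟨h1, h2⟩, rfl⟩)
        · exact ⟨hm, hd0⟩
        · exact ⟨h1, by linarith⟩
    have eL : (prt {b | b < 0} (sh d ω)).encard = (prt {b | b < 0} ω).encard + 1 := by
      rw [hL, (sub_left_injective).encard_image, Set.encard_insert_of_notMem]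
      simp [prt]
    have eR : (prt {b | 0 < b} ω).encard = (prt {b | 0 < b} (sh d ω)).encard + 1 := by
      rw [hR, Set.encard_insert_of_notMem, (add_left_injective d).encard_image]
      rintro ⟨c, ⟨_, h2⟩, h3⟩
      simp only [Set.mem_setOf_eq] at h2 h3
      omega
    unfold TT
    simp only [Set.mem_setOf_eq]
    rw [eL, eR, enat_succ, enat_succ]
  · constructor
    · rintro ⟨_, h⟩
      exact absurd ((neg_mem_sh hd ω).1 h.1) hm
    · rintro ⟨_, h⟩
      exact absurd h.1 hm

theorem prob_sh (d : ℕ) (i j : ℕ) :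
    percH (TT (i + 1) j ∩ NL ((d : ℤ) + 1)) = percH (TT i (j + 1) ∩ NR ((d : ℤ) + 1)) := by
  by_cases hd : Even ((d : ℤ) + 1)
  · rw [← TT_sh hd (by positivity), ← Measure.map_apply (meas_sh _)
      ((meas_TT _ _).inter (meas_NL _)), map_sh]
  · have h1 : TT (i + 1) j ∩ NL ((d : ℤ) + 1) = ∅ := by
      ext ω
      simp only [Set.mem_inter_iff, Set.mem_empty_iff_false, iff_false, not_and]
      intro _ h
      have := even_mem h.1
      rw [even_neg] at this
      exact hd this
    have h2 : TT i (j + 1) ∩ NR ((d : ℤ) + 1) = ∅ := by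
      ext ω
      simp only [Set.mem_inter_iff, Set.mem_empty_iff_false, iff_false, not_and]
      intro _ h
      exact hd (even_mem h.1)
    rw [h1, h2]

theorem cover_R {ω : Om} (h : (prt {b | 0 < b} ω).Nonempty) : ∃ d : ℕ, ω ∈ NR ((d : ℤ) + 1) := by
  classical
  have h1 : ∃ d : ℕ, ((d : ℤ) + 1) ∈ bclH ω := by
    obtain ⟨b, hb, hb0⟩ := h
    simp only [Set.mem_setOf_eq] at hb0
    refine ⟨(b - 1).toNat, ?_⟩
    rw [Int.toNat_of_nonneg (by omega)]
    simpa using hb
  refine ⟨Nat.find h1, Nat.find_spec h1, fun b hb1 hb2 hb => ?_⟩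
  refine Nat.find_min h1 (m := (b - 1).toNat) (by omega) ?_
  rw [Int.toNat_of_nonneg (by omega)]
  simpa using hb

theorem cover_L {ω : Om} (h : (prt {b | b < 0} ω).Nonempty) : ∃ d : ℕ, ω ∈ NL ((d : ℤ) + 1) := by
  classical
  have h1 : ∃ d : ℕ, -((d : ℤ) + 1) ∈ bclH ω := by
    obtain ⟨b, hb, hb0⟩ := h
    simp only [Set.mem_setOf_eq] at hb0
    refine ⟨(-b - 1).toNat, ?_⟩
    rw [Int.toNat_of_nonneg (by omega)]
    simpa using hb
  refine ⟨Nat.find h1, Nat.find_spec h1, fun b hb1 hb2 hb => ?_⟩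
  refine Nat.find_min h1 (m := (-b - 1).toNat) (by omega) ?_
  rw [Int.toNat_of_nonneg (by omega)]
  simpa using hb

theorem disj_R : Pairwise (fun d e : ℕ => Disjoint (NR ((d : ℤ) + 1)) (NR ((e : ℤ) + 1))) := by
  have key : ∀ d e : ℕ, d < e → Disjoint (NR ((d : ℤ) + 1)) (NR ((e : ℤ) + 1)) := by
    intro d e h
    rw [Set.disjoint_left]
    intro ω h1 h2
    exact h2.2 ((d : ℤ) + 1) (by positivity) (by omega) h1.1
  intro d e hde
  rcases lt_or_gt_of_ne hde with h | h
  · exact key d e h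
  · exact (key e d h).symm

theorem disj_L : Pairwise (fun d e : ℕ => Disjoint (NL ((d : ℤ) + 1)) (NL ((e : ℤ) + 1))) := by
  have key : ∀ d e : ℕ, d < e → Disjoint (NL ((d : ℤ) + 1)) (NL ((e : ℤ) + 1)) := by
    intro d e h
    rw [Set.disjoint_left]
    intro ω h1 h2
    exact h2.2 (-((d : ℤ) + 1)) (by omega) (by omega) h1.1
  intro d e hde
  rcases lt_or_gt_of_ne hde with h | h
  · exact key d e h
  · exact (key e d h).symm

/-- the probability depends on `i + j` only -/
theorem TT_step (i j : ℕ) : percH (TT (i + 1) j) = percH (TT i (j + 1)) := by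
  have e1 : TT (i + 1) j = ⋃ d : ℕ, (TT (i + 1) j ∩ NL ((d : ℤ) + 1)) := by
    rw [← Set.inter_iUnion]
    refine (Set.inter_eq_left.2 fun ω hω => ?_).symm
    rw [Set.mem_iUnion]
    refine cover_L ?_
    rw [← Set.encard_ne_zero]
    intro h
    have := hω.1
    rw [h] at this
    simp at this
  have e2 : TT i (j + 1) = ⋃ d : ℕ, (TT i (j + 1) ∩ NR ((d : ℤ) + 1)) := by
    rw [← Set.inter_iUnion]
    refine (Set.inter_eq_left.2 fun ω hω => ?_).symm
    rw [Set.mem_iUnion]
    refine cover_R ?_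
    rw [← Set.encard_ne_zero]
    intro h
    have := hω.2
    rw [h] at this
    simp at this
  rw [e1, e2, measure_iUnion, measure_iUnion]
  · exact tsum_congr fun d => prob_sh d i j
  · intro d e h
    exact (disj_R h).mono Set.inter_subset_right Set.inter_subset_right
  · exact fun d => (meas_TT _ _).inter (meas_NR _)
  · intro d e h
    exact (disj_L h).mono Set.inter_subset_right Set.inter_subset_right
  · exact fun d => (meas_TT _ _).inter (meas_NL _)

end Pool.Agent.V11321.HPL
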